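import Mathlib
import Pool.Agent.X19.SS.Stm

/-! Sub-parts of RS_ROW -/

set_option autoImplicit false

open MeasureTheory ProbabilityTheory Filter Topology
open scoped ENNReal

namespace Pool.Agent.X72.RSR

open Pool.Agent.X19.SS

/-- (RT) transposition of a Gaussian matrix. (`Measure.infinitePi_map_curry` and
`measurePreserving_piCongrLeft`, or `Measure.pi_eq_generateFrom` with boxes.) -/
def S_RT : Prop := ∀ (K : Type) [RCLike K] [MeasurableSpace K] [BorelSpace K] (m p : ℕ),
  MeasurePreserving (fun (h : Fin m → Fin p → K) (a : Fin p) (k : Fin m) => h k a)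
    (Measure.pi fun _ : Fin m => gK K (Fin p)) (Measure.pi fun _ : Fin p => gK K (Fin m))

/-- (RP) orthonormal families and Gaussians (from `S_A1`, `S_B1` of `Pool.Agent.X19.SS.Stm`, proved in `Pool.Agent.X306.SS.A/B`). -/
def S_RP : Prop := ∀ (K : Type) [RCLike K] [MeasurableSpace K] [BorelSpace K] (l p : ℕ)
  (f : Fin p → EuclideanSpace K (Fin l)), Orthonormal K f →
  MeasurePreserving (fun (h : Fin l → K) (a : Fin p) => ∑ i, star (f a i) * h i) (gK K (Fin l)) (gK K (Fin p))

/-- (RM) mean of the distance of the last row to the span of the others (measurability of `dist2`: upper semicontinuous;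
`measurePreserving_piFinSuccAbove`, Tonelli, `S_D2`, `S_D3`). -/
def S_RM : Prop := S_D2 → S_D3 → ∀ (K : Type) [RCLike K] [MeasurableSpace K] [BorelSpace K] (m p : ℕ), p ≤ m →
  Measurable (fun C : Fin (p + 1) → Fin m → K => dist2 (fun i : Fin p => C i.castSucc) (C (Fin.last p))) ∧
  ∫⁻ C, dist2 (fun i : Fin p => C i.castSucc) (C (Fin.last p)) ∂(Measure.pi fun _ : Fin (p + 1) => gK K (Fin m)) =
    (Module.finrank ℝ K : ℝ≥0∞) * ((m - p : ℕ) : ℝ≥0∞)

end Pool.Agent.X72.RSR
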