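import Mathlib
import Pool.Agent.X72.RSR.Stm

set_option autoImplicit false

open MeasureTheory Filter Topology
open scoped ENNReal

namespace Pool.Agent.X72.RSR

open Pool.Agent.X19.SS

theorem t_RM : S_RM := by
  intro hD2 hD3 K _ _ _ m p hpm
  have hmeas : Measurable (fun C : Fin (p + 1) → Fin m → K =>
      dist2 (fun i : Fin p => C i.castSucc) (C (Fin.last p))) := by
    unfold dist2
    have hu : UpperSemicontinuous fun C : Fin (p + 1) → Fin m → K =>
        ⨅ v : Fin p → K, nsq (C (Fin.last p) + ∑ k, v k • C k.castSucc) := by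
      refine upperSemicontinuous_iInf fun v => Continuous.upperSemicontinuous ?_
      unfold nsq
      fun_prop
    exact hu.measurable
  have hmeas2 : Measurable fun x : (Fin m → K) × (Fin p → Fin m → K) => dist2 x.2 x.1 := by
    unfold dist2
    have hu : UpperSemicontinuous fun x : (Fin m → K) × (Fin p → Fin m → K) =>
        ⨅ v : Fin p → K, nsq (x.1 + ∑ k, v k • x.2 k) := by
      refine upperSemicontinuous_iInf fun v => Continuous.upperSemicontinuous ?_
      unfold nsq
      fun_prop
    exact hu.measurable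
  haveI : IsProbabilityMeasure (gK K (Fin m)) := by unfold gK; infer_instance
  refine ⟨hmeas, ?_⟩
  have hmp := measurePreserving_piFinSuccAbove (fun _ : Fin (p + 1) => gK K (Fin m)) (Fin.last p)
  have h1 : ∫⁻ C, dist2 (fun i : Fin p => C i.castSucc) (C (Fin.last p))
      ∂(Measure.pi fun _ : Fin (p + 1) => gK K (Fin m)) =
      ∫⁻ x, dist2 x.2 x.1 ∂((gK K (Fin m)).prod (Measure.pi fun _ : Fin p => gK K (Fin m))) := by
    rw [← hmp.lintegral_comp hmeas2]
    refine lintegral_congr fun C => ?_
    simp [MeasurableEquiv.piFinSuccAbove]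
    rfl
  rw [h1, lintegral_prod_symm _ hmeas2.aemeasurable]
  have h2 : ∀ᵐ S ∂(Measure.pi fun _ : Fin p => gK K (Fin m)),
      ∫⁻ s, dist2 S s ∂(gK K (Fin m)) = (Module.finrank ℝ K : ℝ≥0∞) * ((m - p : ℕ) : ℝ≥0∞) := by
    filter_upwards [hD2 K p (Fin m) (by simpa using hpm)] with S hS
    have := hD3 K p (Fin m) S hS (by simpa using hpm)
    simpa using this
  rw [lintegral_congr_ae h2, lintegral_const, measure_univ, mul_one]

end Pool.Agent.X72.RSR
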