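import Pool.Agent.X72.RSR.Asm
import Pool.Agent.X72.RSR.Rm
import Pool.Agent.X283.RS.Rp
import Pool.Agent.X271.RS.RT

set_option autoImplicit false

namespace Pool.Agent.X72.RSR

/-- RS_ROW -/
theorem t_ROW (hD2 : Pool.Agent.X19.SS.S_D2) (hD3 : Pool.Agent.X19.SS.S_D3) : Pool.Agent.X19.RS.S_ROW :=
  asm Pool.Agent.X271.RS.t_RT Pool.Agent.X283.RS.t_RP t_RM hD2 hD3

end Pool.Agent.X72.RSR
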