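import Mathlib
import Pool.Agent.X19.SS.Stm

/-! Deterministic part of RS_ROW -/

set_option autoImplicit false

open MeasureTheory Filter Topology
open scoped ENNReal

namespace Pool.Agent.X72.RSR

open Pool.Agent.X19.SS

variable {K : Type} [RCLike K]

lemma nsqE {ι : Type} [Fintype ι] (x : ι → K) : nsq x = ‖(WithLp.toLp 2 x : EuclideanSpace K ι)‖ₑ ^ 2 := by
  unfold nsq
  rw [← ofReal_norm_eq_enorm, ← ENNReal.ofReal_pow (norm_nonneg _), EuclideanSpace.norm_sq_eq,
    ENNReal.ofReal_sum_of_nonneg (fun i _ => sq_nonneg _)]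
  refine Finset.sum_congr rfl fun i _ => ?_
  rw [ENNReal.ofReal_pow (norm_nonneg _), ofReal_norm_eq_enorm]

/-- the orthonormal family -/
theorem exists_family {q p l : ℕ} (hl : q + 1 + p = l) (g : Fin (q + 1) → EuclideanSpace K (Fin l))
    (hg : LinearIndependent K g) (j : Fin (q + 1)) :
    ∃ (f : Fin (p + 1) → EuclideanSpace K (Fin l)) (ρ : ℝ), Orthonormal K f ∧ 0 < ρ ∧
      (∀ i, i ≠ j → inner K (f (Fin.last p)) (g i) = 0) ∧ inner K (f (Fin.last p)) (g j) = (ρ : K) ∧
      (∀ x : EuclideanSpace K (Fin l), (∀ a : Fin p, inner K (f a.castSucc) x = 0) →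
        x ∈ Submodule.span K (Set.range g)) ∧
      (∀ (a : Fin p) (i : Fin (q + 1)), inner K (f a.castSucc) (g i) = 0) := by
  classical
  set U := Submodule.span K (Set.range g) with hU
  have hUd : Module.finrank K U = q + 1 := by
    rw [hU, finrank_span_eq_card hg, Fintype.card_fin]
  have hUo : Module.finrank K Uᗮ = p := by
    have h := U.finrank_add_finrank_orthogonal
    rw [hUd, finrank_euclideanSpace, Fintype.card_fin] at h
    omega
  let b0 := stdOrthonormalBasis K Uᗮ
  let b := b0.reindex (finCongr hUo)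
  set W := Submodule.span K (Set.range fun i : {i : Fin (q + 1) // i ≠ j} => g i) with hW
  have hWU : W ≤ U := Submodule.span_mono (by rintro x ⟨i, rfl⟩; exact ⟨i.1, rfl⟩)
  set P := g j - W.starProjection (g j) with hP
  have hPW : P ∈ Wᗮ := Submodule.sub_starProjection_mem_orthogonal (g j)
  have hgjU : g j ∈ U := Submodule.subset_span ⟨j, rfl⟩
  have hPU : P ∈ U := U.sub_mem hgjU (hWU (Submodule.starProjection_apply_mem W (g j)))
  have hP0 : P ≠ 0 := by
    intro h0
    have h1 : g j ∈ W := by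
      rw [sub_eq_zero] at h0
      rw [h0]
      exact Submodule.starProjection_apply_mem W (g j)
    have h2 := hg.notMem_span_image (s := {i | i ≠ j}) (x := j) (by simp)
    apply h2
    have : (Set.range fun i : {i : Fin (q + 1) // i ≠ j} => g i) = g '' {i | i ≠ j} := by
      ext y; simp [Set.mem_image]
    rw [← this]
    exact h1
  have hPn : 0 < ‖P‖ := norm_pos_iff.2 hP0
  set e : EuclideanSpace K (Fin l) := ((‖P‖⁻¹ : ℝ) : K) • P with he
  have heU : e ∈ U := U.smul_mem _ hPU
  have heW : e ∈ Wᗮ := Wᗮ.smul_mem _ hPW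
  have hen : ‖e‖ = 1 := by
    rw [he, norm_smul, RCLike.norm_ofReal, abs_of_pos (inv_pos.2 hPn), inv_mul_cancel₀ hPn.ne']
  have hbe : ∀ a, inner K ((b a : Uᗮ) : EuclideanSpace K (Fin l)) e = 0 := fun a =>
    Submodule.inner_left_of_mem_orthogonal heU (b a).2
  refine ⟨Fin.snoc (fun a => ((b a : Uᗮ) : EuclideanSpace K (Fin l))) e, ‖P‖, ?_, hPn, ?_, ?_, ?_, ?_⟩
  · rw [orthonormal_iff_ite]
    intro x y
    refine Fin.lastCases ?_ (fun a => ?_) x
    · refine Fin.lastCases ?_ (fun c => ?_) y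
      · simp only [Fin.snoc_last]
        rw [inner_self_eq_norm_sq_to_K, hen]
        simp
      · simp only [Fin.snoc_last, Fin.snoc_castSucc]
        rw [← inner_conj_symm, hbe c]
        simp [Fin.ext_iff, Fin.last, c.isLt.ne']
    · refine Fin.lastCases ?_ (fun c => ?_) y
      · simp only [Fin.snoc_last, Fin.snoc_castSucc]
        rw [hbe a]
        simp [Fin.ext_iff, Fin.last, a.isLt.ne]
      · simp only [Fin.snoc_castSucc]
        have h := orthonormal_iff_ite.1 b.orthonormal a c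
        rw [Submodule.coe_inner] at h
        rw [h]
        simp
  · intro i hi
    simp only [Fin.snoc_last]
    exact Submodule.inner_left_of_mem_orthogonal (show g i ∈ W from Submodule.subset_span ⟨⟨i, hi⟩, rfl⟩) heW
  · simp only [Fin.snoc_last]
    have h1 : g j = P + W.starProjection (g j) := by rw [hP]; abel
    have h2 : inner K e (W.starProjection (g j)) = 0 :=
      Submodule.inner_left_of_mem_orthogonal (Submodule.starProjection_apply_mem W (g j)) heW
    rw [h1, inner_add_right, h2, add_zero, he, inner_smul_left, inner_self_eq_norm_sq_to_K]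
    simp only [RCLike.conj_ofReal]
    rw [← RCLike.ofReal_pow, ← RCLike.ofReal_mul]
    congr 1
    field_simp
  · intro x hx
    simp only [Fin.snoc_castSucc] at hx
    have h1 : x ∈ Uᗮᗮ := by
      rw [Submodule.mem_orthogonal]
      intro y hy
      have h2 := b.sum_repr ⟨y, hy⟩
      have h3 : y = ∑ a, (b.repr ⟨y, hy⟩ a) • ((b a : Uᗮ) : EuclideanSpace K (Fin l)) := by
        have := congrArg (Subtype.val) h2
        simpa using this.symm
      rw [h3, sum_inner]
      refine Finset.sum_eq_zero fun a _ => ?_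
      rw [inner_smul_left, hx a, mul_zero]
    rwa [Submodule.orthogonal_orthogonal] at h1
  · intro a i
    simp only [Fin.snoc_castSucc]
    exact Submodule.inner_left_of_mem_orthogonal (show g i ∈ U from Submodule.subset_span ⟨i, rfl⟩) (b a).2

/-- the columns -/
noncomputable def Cc {p m l : ℕ} (f : Fin (p + 1) → EuclideanSpace K (Fin l)) (h : Fin m → Fin l → K) :
    Fin (p + 1) → Fin m → K := fun a k => ∑ i, star (f a i) * h k i

lemma inner_toLp {l : ℕ} (x : EuclideanSpace K (Fin l)) (y : Fin l → K) :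
    inner K x (WithLp.toLp 2 y) = ∑ i, star (x i) * y i := by
  simp [PiLp.inner_apply, RCLike.inner_apply, mul_comm]

set_option maxHeartbeats 4000000 in
theorem det {q m p l : ℕ} (hl : q + 1 + p = l) (g : Fin (q + 1) → Fin l → K)
    (hg : LinearIndependent K g) (j : Fin (q + 1)) :
    ∃ f : Fin (p + 1) → EuclideanSpace K (Fin l), Orthonormal K f ∧ ∀ h : Fin m → Fin l → K,
      dist2 (fun i : Fin p => Cc f h i.castSucc) (Cc f h (Fin.last p)) *
        (dist2 (fun i : Fin q => g (j.succAbove i)) (g j))⁻¹ ≤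
      ⨆ (t : Fin (q + 1) → K) (u : Fin m → K) (_ : t j = 1)
        (_ : ∑ i, t i • g i + ∑ k, u k • h k = 0), (nsq u)⁻¹ := by
  classical
  have hg' : LinearIndependent K fun i => (WithLp.toLp 2 (g i) : EuclideanSpace K (Fin l)) :=
    hg.map' (WithLp.linearEquiv 2 K (Fin l → K)).symm.toLinearMap
      (LinearMap.ker_eq_bot.2 (WithLp.linearEquiv 2 K (Fin l → K)).symm.injective)
  obtain ⟨f, ρ, hf, hρ, h1, h2, h3, h4⟩ := exists_family hl _ hg' j
  refine ⟨f, hf, fun h => ?_⟩
  set S' : Fin p → EuclideanSpace K (Fin m) := fun a => WithLp.toLp 2 (Cc f h a.castSucc) with hS'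
  set s' : EuclideanSpace K (Fin m) := WithLp.toLp 2 (Cc f h (Fin.last p)) with hs'
  set Wm := Submodule.span K (Set.range S') with hWm
  set R0 := s' - Wm.starProjection s' with hR0
  have hR0W : R0 ∈ Wmᗮ := Submodule.sub_starProjection_mem_orthogonal s'
  have hproj : Wm.starProjection s' ∈ Wm := Submodule.starProjection_apply_mem Wm s'
  obtain ⟨v, hv⟩ := (Submodule.mem_span_range_iff_exists_fun K).1 hproj
  have hd1 : dist2 (fun i : Fin p => Cc f h i.castSucc) (Cc f h (Fin.last p)) ≤ ENNReal.ofReal (‖R0‖ ^ 2) := by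
    refine iInf_le_of_le (fun a => - v a) (le_of_eq ?_)
    rw [nsqE, ENNReal.ofReal_pow (norm_nonneg _), ofReal_norm]
    congr 2
    rw [hR0, ← hv, hs', hS']
    simp [WithLp.toLp_add, WithLp.toLp_sum, sub_eq_add_neg]
  have hd2 : ENNReal.ofReal (ρ ^ 2) ≤ dist2 (fun i : Fin q => g (j.succAbove i)) (g j) := by
    refine le_iInf fun w => ?_
    rw [nsqE, ← ofReal_norm, ← ENNReal.ofReal_pow (norm_nonneg _)]
    apply ENNReal.ofReal_le_ofReal
    set y : EuclideanSpace K (Fin l) := WithLp.toLp 2 (g j + ∑ k, w k • g (j.succAbove k)) with hy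
    have hy2 : inner K (f (Fin.last p)) y = (ρ : K) := by
      rw [hy, WithLp.toLp_add, WithLp.toLp_sum, inner_add_right, h2, inner_sum]
      rw [Finset.sum_eq_zero, add_zero]
      intro k _
      rw [WithLp.toLp_smul, inner_smul_right, h1 _ (Fin.succAbove_ne j k), mul_zero]
    have hn : ‖(ρ : K)‖ ≤ ‖f (Fin.last p)‖ * ‖y‖ := by
      rw [← hy2]
      exact norm_inner_le_norm _ _
    rw [hf.1, one_mul, RCLike.norm_ofReal, abs_of_pos hρ] at hn
    gcongr
  by_cases hz : R0 = 0
  · have : dist2 (fun i : Fin p => Cc f h i.castSucc) (Cc f h (Fin.last p)) = 0 := by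
      rw [hz] at hd1
      simpa using hd1
    rw [this, zero_mul]
    exact bot_le
  have hRn : 0 < ‖R0‖ := norm_pos_iff.2 hz
  have hr2 : 0 < ‖R0‖ ^ 2 := by positivity
  let u : Fin m → K := fun k => -((ρ / ‖R0‖ ^ 2 : ℝ) : K) * star (R0 k)
  have hsumu : ∀ c : Fin m → K, ∑ k, u k * c k = -((ρ / ‖R0‖ ^ 2 : ℝ) : K) * inner K R0 (WithLp.toLp 2 c) := by
    intro c
    rw [inner_toLp, Finset.mul_sum]
    exact Finset.sum_congr rfl fun k _ => by simp only [u]; ring
  have hu1 : ∀ a : Fin p, ∑ k, u k * Cc f h a.castSucc k = 0 := by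
    intro a
    rw [hsumu, Submodule.inner_left_of_mem_orthogonal (show WithLp.toLp 2 (Cc f h a.castSucc) ∈ Wm from
      Submodule.subset_span ⟨a, rfl⟩) hR0W, mul_zero]
  have hu2 : ∑ k, u k * Cc f h (Fin.last p) k = -(ρ : K) := by
    rw [hsumu]
    have e1 : (WithLp.toLp 2 (Cc f h (Fin.last p)) : EuclideanSpace K (Fin m)) = R0 + Wm.starProjection s' := by
      rw [hR0]; abel
    rw [e1, inner_add_right, Submodule.inner_left_of_mem_orthogonal hproj hR0W, add_zero,
      inner_self_eq_norm_sq_to_K]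
    rw [← RCLike.ofReal_pow, neg_mul, ← RCLike.ofReal_mul]
    congr 2
    field_simp
  set x : EuclideanSpace K (Fin l) := WithLp.toLp 2 (g j) + ∑ k, u k • WithLp.toLp 2 (h k) with hx
  have hinner : ∀ a, inner K (f a) x = inner K (f a) (WithLp.toLp 2 (g j)) + ∑ k, u k * Cc f h a k := by
    intro a
    rw [hx, inner_add_right, inner_sum]
    congr 1
    refine Finset.sum_congr rfl fun k _ => ?_
    rw [inner_smul_right, inner_toLp]
    rfl
  have hxU := h3 x (fun a => by rw [hinner, h4, hu1, add_zero])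
  obtain ⟨c, hc⟩ := (Submodule.mem_span_range_iff_exists_fun K).1 hxU
  have hcj : c j = 0 := by
    have e1 := hinner (Fin.last p)
    rw [h2, hu2, add_neg_cancel, ← hc, inner_sum, Finset.sum_eq_single j] at e1
    · rw [inner_smul_right, h2] at e1
      rcases mul_eq_zero.1 e1 with h5 | h5
      · exact h5
      · exact absurd (RCLike.ofReal_eq_zero.1 h5) hρ.ne'
    · intro i _ hi
      rw [inner_smul_right, h1 i hi, mul_zero]
    · simp
  have hfin : ∑ i, (Pi.single j (1 : K) - c : Fin (q + 1) → K) i • g i + ∑ k, u k • h k = 0 := by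
    have e2 : ∑ i, c i • g i = g j + ∑ k, u k • h k := by
      have := congrArg WithLp.ofLp hc
      simpa [hx, WithLp.ofLp_sum] using this
    simp only [Pi.sub_apply, sub_smul, Finset.sum_sub_distrib]
    rw [e2, Finset.sum_eq_single j]
    · simp
    · intro i _ hi
      simp [hi]
    · simp
  have hnu : nsq u = ENNReal.ofReal (ρ ^ 2 / ‖R0‖ ^ 2) := by
    rw [nsqE, ← ofReal_norm, ← ENNReal.ofReal_pow (norm_nonneg _), EuclideanSpace.norm_sq_eq]
    congr 1
    have : ∀ k, ‖(WithLp.toLp 2 u : EuclideanSpace K (Fin m)) k‖ ^ 2 = (ρ / ‖R0‖ ^ 2) ^ 2 * ‖R0 k‖ ^ 2 := by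
      intro k
      show ‖-((ρ / ‖R0‖ ^ 2 : ℝ) : K) * star (R0 k)‖ ^ 2 = _
      rw [norm_mul, norm_neg, RCLike.norm_ofReal, norm_star, mul_pow, sq_abs]
    rw [Finset.sum_congr rfl fun k _ => this k, ← Finset.mul_sum, ← EuclideanSpace.norm_sq_eq]
    field_simp
  refine le_trans ?_ (le_iSup_of_le (Pi.single j (1 : K) - c) (le_iSup_of_le u
    (le_iSup_of_le (by simp [hcj]) (le_iSup_of_le hfin le_rfl))))
  rw [hnu, ← ENNReal.ofReal_inv_of_pos (by positivity)]
  have e3 : (ρ ^ 2 / ‖R0‖ ^ 2)⁻¹ = ‖R0‖ ^ 2 * (ρ ^ 2)⁻¹ := by field_simp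
  rw [e3, ENNReal.ofReal_mul hr2.le, ENNReal.ofReal_inv_of_pos (by positivity)]
  exact mul_le_mul' hd1 (ENNReal.inv_le_inv.2 hd2)

end Pool.Agent.X72.RSR
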