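import Mathlib
import Pool.Agent.X72.RSR.Det
import Pool.Agent.X72.RSR.Stm
import Pool.Agent.X19.RS.Stm

/-! Assembly of RS_ROW -/

set_option autoImplicit false

open MeasureTheory Filter Topology
open scoped ENNReal

namespace Pool.Agent.X72.RSR

open Pool.Agent.X19.SS

theorem asm (hT : S_RT) (hP : S_RP) (hM : S_RM) (hD2 : S_D2) (hD3 : S_D3) : Pool.Agent.X19.RS.S_ROW := by
  intro K _ _ _ q m l hql hlq g hg j
  obtain ⟨p, hp⟩ : ∃ p, q + 1 + p = l := ⟨l - (q + 1), by omega⟩
  obtain ⟨f, hf, hdet⟩ := det (m := m) hp g hg j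
  have hpm : p ≤ m := by omega
  obtain ⟨hmeas, hint⟩ := hM hD2 hD3 K m p hpm
  have hrow : MeasurePreserving (fun (h : Fin m → Fin l → K) (k : Fin m) (a : Fin (p + 1)) => ∑ i, star (f a i) * h k i)
      (Measure.pi fun _ : Fin m => gK K (Fin l)) (Measure.pi fun _ : Fin m => gK K (Fin (p + 1))) := by
    haveI : SigmaFinite (gK K (Fin l)) := by unfold gK; infer_instance
    haveI : SigmaFinite (gK K (Fin (p + 1))) := by unfold gK; infer_instance
    exact measurePreserving_pi (fun _ : Fin m => gK K (Fin l)) (fun _ : Fin m => gK K (Fin (p + 1)))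
      (fun _ => hP K l (p + 1) f hf)
  have hC : MeasurePreserving (fun h : Fin m → Fin l → K => Cc f h)
      (Measure.pi fun _ : Fin m => gK K (Fin l)) (Measure.pi fun _ : Fin (p + 1) => gK K (Fin m)) :=
    (hT K m (p + 1)).comp hrow
  have hmp : q + 1 + m - l = m - p := by omega
  have hmm : Measurable (fun h : Fin m → Fin l → K =>
      dist2 (fun i : Fin p => Cc f h i.castSucc) (Cc f h (Fin.last p))) := hmeas.comp hC.measurable
  calc (Module.finrank ℝ K : ℝ≥0∞) * ((q + 1 + m - l : ℕ) : ℝ≥0∞) *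
        (dist2 (fun i : Fin q => g (j.succAbove i)) (g j))⁻¹
      = (∫⁻ C, dist2 (fun i : Fin p => C i.castSucc) (C (Fin.last p))
          ∂(Measure.pi fun _ : Fin (p + 1) => gK K (Fin m))) *
        (dist2 (fun i : Fin q => g (j.succAbove i)) (g j))⁻¹ := by rw [hint, hmp]
    _ = (∫⁻ h, dist2 (fun i : Fin p => Cc f h i.castSucc) (Cc f h (Fin.last p))
          ∂(Measure.pi fun _ : Fin m => gK K (Fin l))) *
        (dist2 (fun i : Fin q => g (j.succAbove i)) (g j))⁻¹ := by
          rw [← hC.lintegral_comp hmeas]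
    _ ≤ ∫⁻ h, dist2 (fun i : Fin p => Cc f h i.castSucc) (Cc f h (Fin.last p)) *
        (dist2 (fun i : Fin q => g (j.succAbove i)) (g j))⁻¹
          ∂(Measure.pi fun _ : Fin m => gK K (Fin l)) := by
          exact (lintegral_mul_const _ hmm).ge
    _ ≤ ∫⁻ h, Pool.Agent.X19.RS.lam g h j ∂(Pool.Agent.X19.RS.gM K m l) :=
          lintegral_mono fun h => hdet h

end Pool.Agent.X72.RSR
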